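import Pool.Agent.GSBlocks.Lines

set_option autoImplicit false

namespace Pool.Agent.Results.MP_27ff1b_co.LinesGS

/-- `InL d G`: the graph `G` belongs to the class `𝓛_d`, that is, `G` is (isomorphic to) the
intersection graph of a family of distinct affine lines of `ℝ^d`: there is an injective assignment
of an affine line `ℓ v` (a nonempty affine subspace with one-dimensional direction) to every vertex
`v`, such that distinct vertices are adjacent exactly when their lines share a point. -/
def InL (d : ℕ) {V : Type} (G : SimpleGraph V) : Prop :=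
  ∃ ℓ : V → AffineSubspace ℝ (EuclideanSpace ℝ (Fin d)), Function.Injective ℓ ∧
    (∀ v, (ℓ v : Set (EuclideanSpace ℝ (Fin d))).Nonempty ∧
      Module.finrank ℝ (ℓ v).direction = 1) ∧
    ∀ u v, G.Adj u v ↔ u ≠ v ∧ ∃ x, x ∈ ℓ u ∧ x ∈ ℓ v

/-- The Gyárfás–Sumner conjecture holds for intersection graphs of lines in `ℝ^d`, for every `d`,
with a bounding function that does not depend on `d`. -/
theorem result (W : Type) [Finite W] (F : SimpleGraph W) (hF : F.IsAcyclic) :
    ∃ f : ℕ → ℕ, ∀ (d : ℕ) (V : Type) [Finite V] (G : SimpleGraph V), InL d G →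
      ¬ F.IsIndContained G → G.chromaticNumber ≤ (f G.cliqueNum : ℕ∞) := by
  have h := fun k : ℕ => GSBlocks.gs_blocks_forest.{0, 0} F hF (k + 8) (k + 2)
    (fun t => 2 * (k + t) + 3)
  choose f hf using h
  refine ⟨f, fun d V _ G hG hfree => ?_⟩
  have := Fintype.ofFinite V
  obtain ⟨ℓ, hinj, hline, hadj⟩ := hG
  obtain ⟨𝓑, h𝓑⟩ := GSBlocks.blockSys_lines G ℓ hinj hline hadj G.cliqueNum (by
    intro A hA
    refine SimpleGraph.IsClique.card_le_cliqueNum (tc := ?_)
    intro u hu v hv huv
    exact hA u hu v hv huv)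
  exact (hf G.cliqueNum V G 𝓑 h𝓑 hfree).chromaticNumber_le

end Pool.Agent.Results.MP_27ff1b_co.LinesGS
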