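import Pool.Agent.GSBlocks.Segments

set_option autoImplicit false

namespace Pool.Agent.Results.MP_27ff1b_co.SegmentsGS

/-- The Gyárfás–Sumner property for intersection graphs of closed segments in `ℝ^d` (all `d`, with
a bound not depending on `d`), restricted to families in which coplanar subfamilies have bounded
chromatic number. -/
theorem result (W : Type) [Finite W] (F : SimpleGraph W) (hF : F.IsAcyclic) (k c : ℕ) :
    ∃ N : ℕ, ∀ (d : ℕ), 1 ≤ d → ∀ (V : Type) [Finite V] (G : SimpleGraph V)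
      (a b : V → EuclideanSpace ℝ (Fin d)),
      (∀ u v, G.Adj u v ↔ u ≠ v ∧ (segment ℝ (a u) (b u) ∩ segment ℝ (a v) (b v)).Nonempty) →
      G.cliqueNum ≤ k → ¬ F.IsIndContained G →
      (∀ A : Set V, Coplanar ℝ (⋃ v ∈ A, segment ℝ (a v) (b v)) → (G.induce A).Colorable c) →
      G.chromaticNumber ≤ (N : ℕ∞) := by
  obtain ⟨N, hN⟩ := GSBlocks.gs_segments F hF k c
  refine ⟨N, fun d hd V _ G a b hadj hk hfree hpl => ?_⟩
  have : Nonempty (Fin d) := ⟨⟨0, hd⟩⟩
  exact (hN (EuclideanSpace ℝ (Fin d)) V G a b hadj hk hfree hpl).chromaticNumber_le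

end Pool.Agent.Results.MP_27ff1b_co.SegmentsGS
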